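import Pool.Agent.H.MP_040564_an.Defs
import Pool.Agent.H.MP_04e97d_an.B

namespace Pool.Agent.H.MP_040564_an

open Pool.Agent.H.MP_a83649_an Finset Complex

/-- signed sum -/
def ss {E : Type} [AddCommGroup E] {n : ℕ} (ε : Fin n → Bool) (h : Fin n → E) : E :=
  ∑ k, (if ε k then h k else -h k)

lemma ss_map {E F G : Type} [AddCommGroup E] [AddCommGroup F] [FunLike G E F]
    [AddMonoidHomClass G E F] (T : G) {n : ℕ} (ε : Fin n → Bool) (h : Fin n → E) :
    ss ε (fun k => T (h k)) = T (ss ε h) := by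
  rw [ss, ss, map_sum]
  exact sum_congr rfl fun k _ => by split_ifs <;> simp

lemma ss_add {E : Type} [AddCommGroup E] {n : ℕ} (ε : Fin n → Bool) (g h : Fin n → E) :
    ss ε (fun k => g k + h k) = ss ε g + ss ε h := by
  rw [ss, ss, ss, ← sum_add_distrib]
  exact sum_congr rfl fun k _ => by split_ifs <;> abel

variable {Y : Type} [NormedAddCommGroup Y] {n : ℕ}

/-- first moment -/
noncomputable def r1 (h : Fin n → Y) : ℝ := ∑ ε, ‖ss ε h‖

lemma low (h : Fin n → Y) (m : Fin n) [NormedSpace ℂ Y] : 2 ^ n * ‖h m‖ ≤ r1 h := by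
  have h1 := (MP_a83649_an.flip m).sum_comp fun ε => ‖ss ε h‖
  have h2 := card_nsmul_le_sum univ (fun ε => ‖ss ε h‖ + ‖ss (MP_a83649_an.flip m ε) h‖) (2 * ‖h m‖)
    fun ε _ => by
      have h3 := norm_sub_le (ss ε h) (ss (MP_a83649_an.flip m ε) h)
      rwa [ss, ss, flip_sum, ← two_smul ℂ, norm_smul, show ‖if ε m then h m else -h m‖ = ‖h m‖ by
        split_ifs <;> simp, Complex.norm_two] at h3
  rw [sum_add_distrib, h1] at h2
  simp only [card_univ, Fintype.card_fun, Fintype.card_bool, Fintype.card_fin, nsmul_eq_mul,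
    Nat.cast_pow, Nat.cast_ofNat] at h2
  unfold r1
  linarith

variable [NormedSpace ℂ Y]

lemma step (h : Fin n → Y) (m : Fin n) {t : ℝ} (ht : |t| ≤ 1) :
    r1 (Function.update h m ((t : ℂ) • h m)) ≤ r1 h := by
  have h0 := abs_le.1 ht
  have h1 : ∀ ε, ss ε (Function.update h m ((t : ℂ) • h m)) =
      (((1 + t) / 2 : ℝ) : ℂ) • ss ε h + (((1 - t) / 2 : ℝ) : ℂ) • ss (MP_a83649_an.flip m ε) h := fun ε => by
    rw [ss, ss, ss, smul_sum, smul_sum, ← sum_add_distrib]
    refine sum_congr rfl fun k _ => ?_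
    rcases eq_or_ne k m with rfl | hk
    · cases h : ε k <;> simp [MP_a83649_an.flip, h] <;> module
    · cases h : ε k <;> simp [MP_a83649_an.flip, h, Function.update_of_ne hk] <;> module
  have h2 := (MP_a83649_an.flip m).sum_comp fun ε => ‖ss ε h‖
  calc _ ≤ ∑ ε, ((1 + t) / 2 * ‖ss ε h‖ + (1 - t) / 2 * ‖ss (MP_a83649_an.flip m ε) h‖) :=
        sum_le_sum fun ε _ => by
          rw [h1]
          refine (norm_add_le _ _).trans_eq ?_
          rw [norm_smul, norm_smul, norm_real, norm_real, Real.norm_of_nonneg (by linarith),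
            Real.norm_of_nonneg (by linarith)]
    _ = _ := by
        rw [sum_add_distrib, ← mul_sum, ← mul_sum, h2, r1]
        ring

lemma contr_re (h : Fin n → Y) (c : Fin n → ℝ) (hc : ∀ j, |c j| ≤ 1) :
    r1 (fun j => (c j : ℂ) • h j) ≤ r1 h := by
  have : ∀ s : Finset (Fin n), r1 (fun j => if j ∈ s then (c j : ℂ) • h j else h j) ≤ r1 h := by
    intro s
    induction s using Finset.induction_on with
    | empty => simp
    | insert m s hm ih =>
      refine le_trans (le_of_eq_of_le ?_ (step _ m (hc m))) ih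
      congr 1
      funext j
      rcases eq_or_ne j m with rfl | hj
      · simp [hm]
      · simp [hj]
  simpa using this univ

lemma r1_map (T : Y →L[ℂ] Y) {M : ℝ} (hT : ‖T‖ ≤ M) (h : Fin n → Y) :
    r1 (fun j => T (h j)) ≤ M * r1 h := by
  rw [r1, r1, mul_sum]
  exact sum_le_sum fun ε _ => by rw [ss_map]; exact T.le_of_opNorm_le hT _

lemma contr (h : Fin n → Y) (c : Fin n → ℂ) (hc : ∀ j, ‖c j‖ ≤ 1) :
    r1 (fun j => c j • h j) ≤ 2 * r1 h := by
  have h1 := contr_re h (fun j => (c j).re) fun j => (abs_re_le_norm _).trans (hc j)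
  have h2 := contr_re h (fun j => (c j).im) fun j => (abs_im_le_norm _).trans (hc j)
  rw [two_mul]
  refine le_trans ?_ (add_le_add h1 h2)
  rw [r1, r1, r1, ← sum_add_distrib]
  refine sum_le_sum fun ε _ => ?_
  have h3 : (fun j => c j • h j) = fun j => ((c j).re : ℂ) • h j +
      DistribSMul.toAddMonoidHom Y I (((c j).im : ℂ) • h j) := funext fun j => by
    rw [DistribSMul.toAddMonoidHom_apply, smul_smul, ← add_smul, mul_comm, re_add_im]
  rw [h3, ss_add, ss_map, DistribSMul.toAddMonoidHom_apply]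
  refine (norm_add_le _ _).trans_eq ?_
  rw [norm_smul, norm_I, one_mul]

lemma sq_re (r : Fin n → ℝ) : ∑ ε, ss ε r ^ 2 = 2 ^ n * ∑ k, r k ^ 2 := by
  have h2 : ∀ k : Fin n, ∑ ε : Fin n → Bool, ∑ l, (if ε k then r k else -r k) *
      (if ε l then r l else -r l) = 2 ^ n * r k ^ 2 := fun k => by
    rw [sum_comm, sum_eq_single k]
    · rw [sum_congr rfl fun ε _ => show _ = r k ^ 2 by split_ifs <;> ring]
      simp
    · intro l _ hl
      have h3 := (MP_a83649_an.flip k).sum_comp fun ε =>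
        (if ε k then r k else -r k) * (if ε l then r l else -r l)
      have h4 : ∀ ε, (if MP_a83649_an.flip k ε k then r k else -r k) * (if MP_a83649_an.flip k ε l then r l else -r l) =
          -((if ε k then r k else -r k) * (if ε l then r l else -r l)) := fun ε => by
        cases h : ε k <;> cases h' : ε l <;> simp [MP_a83649_an.flip, h, h', Function.update_of_ne hl]
      simp only [h4, sum_neg_distrib] at h3
      linarith
    · simp
  simp only [ss, sq (∑ _, _), sum_mul_sum]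
  rw [sum_comm, sum_congr rfl fun k _ => h2 k, mul_sum]

lemma sq_cx (c : Fin n → ℂ) (hc : ∀ j, ‖c j‖ = 1) : ∑ ε, ‖ss ε c‖ ^ 2 = 2 ^ n * n := by
  have h1 : ∀ z : ℂ, ‖z‖ ^ 2 = reAddGroupHom z ^ 2 + imAddGroupHom z ^ 2 := fun z => by
    rw [Complex.sq_norm, normSq_apply]
    simp [sq]
  simp only [h1, ← ss_map, sum_add_distrib, sq_re]
  rw [← mul_add, ← sum_add_distrib]
  simp only [← h1, hc]
  simp

lemma amgm (x : ℝ) {L : ℝ} (hL : 0 < L) : x ≤ L + x ^ 2 / L := by
  rw [add_div' _ _ _ hL.ne', le_div_iff₀ hL]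
  nlinarith [sq_nonneg (x - L), sq_nonneg x, sq_nonneg L]

lemma r1_cx (hn : 0 < n) (c : Fin n → ℂ) (hc : ∀ j, ‖c j‖ = 1) : r1 c ≤ 2 * (2 ^ n * √n) := by
  have h0 : 0 < √(n : ℝ) := Real.sqrt_pos.2 (by exact_mod_cast hn)
  refine (sum_le_sum fun ε _ => amgm _ h0).trans_eq ?_
  rw [sum_add_distrib, ← sum_div, sq_cx c hc, mul_div_assoc, Real.div_sqrt]
  simp
  ring

end Pool.Agent.H.MP_040564_an
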