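import Pool.Agent.H.MP_040564_an.A

namespace Pool.Agent.H.MP_040564_an

open Pool.Agent.H.MP_a83649_an Finset Complex MeasureTheory Filter
open scoped ContDiff NNReal

variable {Y : Type} [NormedAddCommGroup Y] [NormedSpace ℂ Y]

lemma kk_meas {F : ℝ → Y} (hF : Continuous F) :
    StronglyMeasurable fun p : ℝ × ℝ => (p.2 : ℂ)⁻¹ • (F (p.1 - p.2) - F (p.1 + p.2)) :=
  (show Measurable fun p : ℝ × ℝ => (p.2 : ℂ)⁻¹ by fun_prop).stronglyMeasurable.smul
    (Continuous.stronglyMeasurable (by fun_prop))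

omit [NormedSpace ℂ Y] in
lemma lint_sq {F : ℝ → Y} : ∫⁻ x, ‖F x‖ₑ ^ 2 = ∫⁻ x, ENNReal.ofReal (‖F x‖ ^ 2) := by
  simp only [ENNReal.ofReal_pow (norm_nonneg _), ofReal_norm]

omit [NormedSpace ℂ Y] in
lemma sq_int {F : ℝ → Y} (hF : Continuous F) (hc : HasCompactSupport F) :
    Integrable fun x => ‖F x‖ ^ 2 :=
  Continuous.integrable_of_hasCompactSupport (by fun_prop)
    (HasCompactSupport.intro hc fun x hx => by simp [image_eq_zero_of_notMem_tsupport hx])

lemma ht_real {F : ℝ → Y} (hF : Continuous F) (hc : HasCompactSupport F) {C : ℝ≥0}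
    (h : ∫⁻ x, ‖hilb F x‖ₑ ^ 2 ≤ C * ∫⁻ x, ‖F x‖ₑ ^ 2) :
    Integrable (fun x => ‖hilb F x‖ ^ 2) ∧ ∫ x, ‖hilb F x‖ ^ 2 ≤ C * ∫ x, ‖F x‖ ^ 2 := by
  have h1 : Integrable fun x => ‖F x‖ ^ 2 := sq_int hF hc
  rw [lint_sq, lint_sq, ← ofReal_integral_eq_lintegral_ofReal h1
    (Eventually.of_forall fun _ => by positivity), ← ENNReal.ofReal_coe_nnreal,
    ← ENNReal.ofReal_mul C.coe_nonneg] at h
  have h2 : StronglyMeasurable (hilb F) := (kk_meas hF).integral_prod_right'
  have h3 : Integrable fun x => ‖hilb F x‖ ^ 2 :=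
    (lintegral_ofReal_ne_top_iff_integrable (h2.norm.pow 2).aestronglyMeasurable
      (Eventually.of_forall fun _ => sq_nonneg _)).1 (h.trans_lt ENNReal.ofReal_lt_top).ne
  rw [← ofReal_integral_eq_lintegral_ofReal h3 (Eventually.of_forall fun _ => by positivity)] at h
  exact ⟨h3, (ENNReal.ofReal_le_ofReal_iff (by positivity)).1 h⟩

lemma hilb_split {F : ℝ → Y} (hF : ContDiff ℝ ∞ F) (hc : HasCompactSupport F) {R : ℝ}
    (hR : 0 < R) (x : ℝ) : ‖∫ t in Set.Ioc 0 R, (t : ℂ)⁻¹ • (F (x - t) - F (x + t))‖ ≤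
      ‖hilb F x‖ + R⁻¹ * (2 * ∫ s, ‖F s‖) := by
  have hm : StronglyMeasurable fun t : ℝ => (t : ℂ)⁻¹ • (F (x - t) - F (x + t)) :=
    (kk_meas hF.continuous).comp_measurable (measurable_prodMk_left (x := x))
  obtain ⟨K, hK⟩ := hF.lipschitzWith_of_hasCompactSupport hc (by simp)
  have h1 : IntegrableOn (fun t : ℝ => (t : ℂ)⁻¹ • (F (x - t) - F (x + t))) (Set.Ioc 0 R) := by
    refine Measure.integrableOn_of_bounded (M := K * 2) measure_Ioc_lt_top.ne
      hm.aestronglyMeasurable (ae_restrict_of_forall_mem measurableSet_Ioc fun t ht => ?_)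
    have := hK.norm_sub_le (x - t) (x + t)
    rw [show x - t - (x + t) = -(2 * t) by ring, norm_neg, Real.norm_of_nonneg
      (by linarith [ht.1])] at this
    rw [norm_smul, norm_inv, norm_real, Real.norm_of_nonneg ht.1.le, inv_mul_le_iff₀ ht.1]
    linarith
  have h2 := (hF.continuous.integrable_of_hasCompactSupport (μ := volume) hc).norm
  have h3 := ((h2.comp_sub_left x).add (h2.comp_add_left x)).const_mul R⁻¹
  have h4 : ∀ᵐ t : ℝ ∂volume.restrict (Set.Ioi R), ‖(t : ℂ)⁻¹ • (F (x - t) - F (x + t))‖ ≤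
      R⁻¹ * (‖F (x - t)‖ + ‖F (x + t)‖) :=
    ae_restrict_of_forall_mem measurableSet_Ioi fun t (ht : R < t) => by
      rw [norm_smul, norm_inv, norm_real, Real.norm_of_nonneg (hR.trans ht).le]
      exact mul_le_mul (inv_anti₀ hR ht.le) (norm_sub_le _ _) (norm_nonneg _) (by positivity)
  have h5 := setIntegral_union Set.Ioc_disjoint_Ioi_same measurableSet_Ioi h1
    (h3.integrableOn.mono' hm.aestronglyMeasurable h4)
  rw [Set.Ioc_union_Ioi_eq_Ioi hR.le] at h5
  rw [eq_sub_of_add_eq h5.symm]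
  refine norm_sub_le_of_le le_rfl ((norm_integral_le_of_norm_le h3.integrableOn h4).trans
    ((setIntegral_le_integral h3 (Eventually.of_forall fun t => ?_)).trans_eq ?_))
  · simp only [Pi.add_apply, Pi.zero_apply]
    positivity
  · simp only [Pi.add_apply]
    rw [integral_const_mul, integral_add (h2.comp_sub_left x) (h2.comp_add_left x),
      integral_sub_left_eq_self (fun s => ‖F s‖), integral_add_left_eq_self (fun s => ‖F s‖),
      two_mul]

lemma int_le {g : ℝ → ℝ} {R B : ℝ} (hR : 0 < R) (h0 : ∀ x, 0 ≤ g x) (h : ∀ x, g x ≤ B)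
    (hz : ∀ x, 3 * R ≤ |x| → g x = 0) : ∫ x, g x ≤ B * (6 * R) := by
  rw [← setIntegral_eq_integral_of_forall_compl_eq_zero (s := Set.Icc (-(3 * R)) (3 * R))
    fun x hx => hz x (not_lt.1 fun h => hx (abs_le.1 h.le))]
  refine (Real.le_norm_self _).trans ((norm_setIntegral_le_of_norm_le_const measure_Icc_lt_top
    fun x _ => (Real.norm_of_nonneg (h0 x)).trans_le (h x)).trans_eq ?_)
  rw [Real.volume_real_Icc_of_le (by linarith)]
  ring

/-- unimodular exponentials -/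
noncomputable def ex (s : ℝ) : ℂ := cexp (I * s)

lemma ex_norm (s : ℝ) : ‖ex s‖ = 1 := norm_exp_I_mul_ofReal s

lemma ex_add (s t : ℝ) : ex (s + t) = ex s * ex t := by
  rw [ex, ofReal_add, mul_add, Complex.exp_add, ex, ex]

lemma ex_sub (s : ℝ) : ‖ex s - ex (-s)‖ ≤ 2 * |s| := by
  have h1 := Real.norm_exp_I_mul_ofReal_sub_one_le (x := s)
  have h2 := Real.norm_exp_I_mul_ofReal_sub_one_le (x := -s)
  rw [norm_neg] at h2
  rw [← sub_sub_sub_cancel_right _ _ 1, two_mul]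
  exact norm_sub_le_of_le h1 h2

lemma ex_smooth : ContDiff ℝ ∞ ex :=
  Complex.contDiff_exp.comp (contDiff_const.mul ofRealCLM.contDiff)

/-- the modulated kernel -/
noncomputable def mk (o : ℝ → Y) (a t : ℝ) : Y :=
  (t : ℂ)⁻¹ • (ex (a * t) • o (-t) - ex (-(a * t)) • o t)

lemma mk_meas {o : ℝ → Y} (ho : Continuous o) :
    StronglyMeasurable fun p : ℝ × ℝ => mk o p.1 p.2 := by
  have := ex_smooth.continuous
  exact (show Measurable fun p : ℝ × ℝ => (p.2 : ℂ)⁻¹ by fun_prop).stronglyMeasurable.smul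
    (Continuous.stronglyMeasurable (by fun_prop))

lemma mk_le {o : ℝ → Y} (ho : ContDiff ℝ ∞ o) {B : ℝ} (hB : ∀ x, ‖o x‖ ≤ B) (R : ℝ) :
    ∃ L, ∀ a, ∀ t ∈ Set.Ioc 0 R, ‖mk o a t‖ ≤ 2 * B * |a| + L := by
  obtain ⟨K, hK⟩ := ho.contDiffOn.exists_lipschitzOnWith (s := Set.Icc (-R) R) (by simp)
    (convex_Icc _ _) isCompact_Icc
  refine ⟨K * 2, fun a t ht => ?_⟩
  have h1 := hK.norm_sub_le (x := -t) (y := t) ⟨by linarith [ht.2], by linarith [ht.1, ht.2]⟩
    ⟨by linarith [ht.1, ht.2], ht.2⟩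
  rw [show -t - t = -(2 * t) by ring, norm_neg, Real.norm_of_nonneg (by linarith [ht.1])] at h1
  have h2 := ex_sub (a * t)
  rw [abs_mul, abs_of_pos ht.1] at h2
  rw [mk, norm_smul, norm_inv, norm_real, Real.norm_of_nonneg ht.1.le, inv_mul_le_iff₀ ht.1,
    show ex (a * t) • o (-t) - ex (-(a * t)) • o t = (ex (a * t) - ex (-(a * t))) • o (-t) +
      ex (-(a * t)) • (o (-t) - o t) by module]
  refine (norm_add_le _ _).trans ?_
  rw [norm_smul, norm_smul, ex_norm, one_mul]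
  have := mul_le_mul h2 (hB (-t)) (norm_nonneg _) (by have := ht.1; positivity)
  linarith

lemma mk_int {o : ℝ → Y} (ho : ContDiff ℝ ∞ o) {B : ℝ} (hB : ∀ x, ‖o x‖ ≤ B) (R a : ℝ) :
    IntegrableOn (mk o a) (Set.Ioc 0 R) := by
  obtain ⟨L, hL⟩ := mk_le ho hB R
  exact Measure.integrableOn_of_bounded measure_Ioc_lt_top.ne
    ((mk_meas ho.continuous).comp_measurable (measurable_prodMk_left (x := a))).aestronglyMeasurable
    (ae_restrict_of_forall_mem measurableSet_Ioc (hL a))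

lemma ss_int {n : ℕ} (ε : Fin n → Bool) {μ : Measure ℝ} {g : Fin n → ℝ → Y}
    (hg : ∀ j, Integrable (g j) μ) : Integrable (fun t => ss ε fun j => g j t) μ ∧
      ∫ t, ss ε (fun j => g j t) ∂μ = ss ε fun j => ∫ t, g j t ∂μ := by
  have h : ∀ j ∈ univ, Integrable (fun t => if ε j then g j t else -g j t) μ := fun j _ => by
    split_ifs
    exacts [hg j, (hg j).neg]
  refine ⟨integrable_finset_sum _ h, (integral_finset_sum _ h).trans (sum_congr rfl fun j _ => ?_)⟩
  split_ifs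
  exacts [rfl, integral_neg _]

lemma transf [CompleteSpace Y] (hY : UMD Y) {U : ℝ → Y →L[ℂ] Y} (hU : BGroup U) {y : Y}
    (ho : ContDiff ℝ ∞ fun x => U (-x) y) : ∃ C, ∀ n : ℕ, 0 < n → ∀ R, 0 < R →
    ∀ a : Fin n → ℝ, r1 (fun j => ∫ t in Set.Ioc 0 R, mk (fun x => U (-x) y) (a j) t) ≤
      C * (2 ^ n * √n) := by
  obtain ⟨C, hC⟩ := hY
  obtain ⟨h0, h1, -, M, hM⟩ := hU
  have hM0 := (norm_nonneg _).trans (hM 0)
  have hB : ∀ x, ‖U (-x) y‖ ≤ M * ‖y‖ := fun x => (U (-x)).le_of_opNorm_le (hM _) y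
  refine ⟨M * 2 * (1 + 24 * (M * ‖y‖)) + 6 * M * C * (M * ‖y‖) ^ 2, fun n hn R hR a => ?_⟩
  have hL : 0 < √(n : ℝ) := Real.sqrt_pos.2 (by exact_mod_cast hn)
  let χ : ContDiffBump (0 : ℝ) := ⟨2 * R, 3 * R, by linarith, by linarith⟩
  let F : (Fin n → Bool) → ℝ → Y := fun ε x =>
    χ x • ss ε (fun j => ex (-(a j * x))) • U (-x) y
  have hF : ∀ ε, ContDiff ℝ ∞ (F ε) := fun ε => χ.contDiff.smul (ContDiff.smul
    (ContDiff.sum fun j _ => by
      have : ContDiff ℝ ∞ fun x => ex (-(a j * x)) := ex_smooth.comp (by fun_prop)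
      split_ifs
      exacts [this, this.neg]) ho)
  have hc : ∀ ε, HasCompactSupport (F ε) := fun ε => χ.hasCompactSupport.smul_right
  have hz : ∀ ε x, 3 * R ≤ |x| → F ε x = 0 := fun ε x hx => by
    simp only [F, χ.zero_of_le_dist (x := x) (by simpa using hx), zero_smul]
  have hn1 : ∀ ε x, ‖F ε x‖ ≤ ‖ss ε fun j => ex (-(a j * x))‖ * (M * ‖y‖) := fun ε x => by
    rw [norm_smul, norm_smul, Real.norm_of_nonneg χ.nonneg]
    exact (mul_le_of_le_one_left (by positivity) χ.le_one).trans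
      (mul_le_mul_of_nonneg_left (hB x) (norm_nonneg _))
  have hi : ∀ ε, Integrable (F ε) := fun ε =>
    (hF ε).continuous.integrable_of_hasCompactSupport (hc ε)
  have hs1 : ∑ ε, ∫ x, ‖F ε x‖ ≤ 2 * (2 ^ n * √n) * (M * ‖y‖) * (6 * R) := by
    rw [← integral_finset_sum _ fun ε _ => (hi ε).norm]
    refine int_le hR (fun _ => by positivity) (fun x => (sum_le_sum fun ε _ => hn1 ε x).trans ?_)
      fun x hx => by simp [hz _ x hx]
    rw [← sum_mul]
    exact mul_le_mul_of_nonneg_right (r1_cx hn _ fun _ => ex_norm _) (by positivity)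
  have hs2 : ∑ ε, ∫ x, ‖F ε x‖ ^ 2 ≤ 2 ^ n * n * (M * ‖y‖) ^ 2 * (6 * R) := by
    rw [← integral_finset_sum _ fun ε _ => sq_int (hF ε).continuous (hc ε)]
    refine int_le hR (fun _ => by positivity) (fun x => (sum_le_sum fun ε _ =>
      pow_le_pow_left₀ (norm_nonneg _) (hn1 ε x) 2).trans_eq ?_) fun x hx => by simp [hz _ x hx]
    simp only [mul_pow _ (M * ‖y‖), ← sum_mul, sq_cx _ fun _ => ex_norm _]
  have ht := fun ε => ht_real (hF ε).continuous (hc ε) (hC _ (hF ε) (hc ε))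
  set V := fun j => ∫ t in Set.Ioc 0 R, mk (fun x => U (-x) y) (a j) t with hV
  have hP : ∀ ε, ∀ x ∈ Set.Icc (-R) R, ∫ t in Set.Ioc 0 R, (t : ℂ)⁻¹ • (F ε (x - t) - F ε (x + t)) =
      ss ε fun j => ex (-(a j * x)) • U (-x) (V j) := fun ε x hx => by
    have h2 : ∀ j, ex (-(a j * x)) • U (-x) (V j) = _ := fun j =>
      ((ex (-(a j * x)) • U (-x)).integral_comp_comm (mk_int ho hB R (a j))).symm
    simp only [h2]
    rw [← (ss_int ε fun j => (ex (-(a j * x)) • U (-x)).integrable_comp (mk_int ho hB R (a j))).2]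
    refine setIntegral_congr_fun measurableSet_Ioc fun t ht => ?_
    have h3 : χ (x - t) = 1 := χ.one_of_mem_closedBall (by
      rw [mem_closedBall_zero_iff, Real.norm_eq_abs, abs_le]
      constructor <;> simp only [χ] <;> linarith [hx.1, hx.2, ht.1, ht.2])
    have h4 : χ (x + t) = 1 := χ.one_of_mem_closedBall (by
      rw [mem_closedBall_zero_iff, Real.norm_eq_abs, abs_le]
      constructor <;> simp only [χ] <;> linarith [hx.1, hx.2, ht.1, ht.2])
    simp only [F, h3, h4, one_smul, ss, sum_smul, ← sum_sub_distrib, smul_sum]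
    refine sum_congr rfl fun j _ => ?_
    rw [show -(a j * (x - t)) = -(a j * x) + a j * t by ring,
      show -(a j * (x + t)) = -(a j * x) + -(a j * t) by ring, show -(x - t) = -x + - -t by ring,
      neg_add x t, h1, h1, ex_add, ex_add]
    simp only [mk, ContinuousLinearMap.smul_apply, map_smul, map_sub]
    split_ifs <;> module
  have h2 : ∀ x ∈ Set.Icc (-R) R, r1 V - M * 2 * (1 + 24 * (M * ‖y‖)) * (2 ^ n * √n) ≤
      M * 2 / √n * ∑ ε, ‖hilb (F ε) x‖ ^ 2 := fun x hx => by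
    have h3 := r1_map (U x) (hM x) fun j => U (-x) (V j)
    have h4 := contr (fun j => ex (-(a j * x)) • U (-x) (V j)) (fun j => ex (a j * x))
      fun j => (ex_norm _).le
    simp only [← h1, add_neg_cancel, h0] at h3
    simp only [smul_smul, ← ex_add, add_neg_cancel, show ex 0 = 1 by simp [ex], one_smul] at h4
    have h5 : r1 (fun j => ex (-(a j * x)) • U (-x) (V j)) ≤
        ∑ ε, (√n + ‖hilb (F ε) x‖ ^ 2 / √n + R⁻¹ * (2 * ∫ s, ‖F ε s‖)) :=
      sum_le_sum fun ε _ => by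
        rw [← hP ε x hx]
        exact (hilb_split (hF ε) (hc ε) hR x).trans (add_le_add_left (amgm _ hL) _)
    rw [sum_add_distrib, sum_add_distrib, ← sum_div, ← mul_sum, ← mul_sum] at h5
    simp only [sum_const, card_univ, Fintype.card_fun, Fintype.card_bool, Fintype.card_fin,
      nsmul_eq_mul, Nat.cast_pow, Nat.cast_ofNat] at h5
    have h6 : R⁻¹ * (2 * ∑ ε, ∫ s, ‖F ε s‖) ≤ 24 * (M * ‖y‖) * (2 ^ n * √n) := by
      rw [inv_mul_le_iff₀ hR]
      linarith
    have h7 := mul_le_mul_of_nonneg_left (h4.trans (mul_le_mul_of_nonneg_left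
      (h5.trans (add_le_add_right h6 _)) zero_le_two)) hM0
    rw [div_mul_eq_mul_div, mul_div_assoc]
    linarith
  have h3 : Integrable fun x => M * 2 / √n * ∑ ε, ‖hilb (F ε) x‖ ^ 2 :=
    (integrable_finset_sum _ fun ε _ => (ht ε).1).const_mul _
  have h4 := (setIntegral_ge_of_const_le_real measurableSet_Icc measure_Icc_lt_top.ne h2
    h3.integrableOn).trans (setIntegral_le_integral h3 (Eventually.of_forall fun x => by
      simp only [Pi.zero_apply]; positivity))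
  rw [integral_const_mul, integral_finset_sum _ fun ε _ => (ht ε).1,
    Real.volume_real_Icc_of_le (by linarith)] at h4
  have h5 := (sum_le_sum fun ε (_ : ε ∈ univ) => (ht ε).2).trans
    ((mul_sum ..).symm.trans_le (mul_le_mul_of_nonneg_left hs2 C.coe_nonneg))
  have h6 := h4.trans (mul_le_mul_of_nonneg_left h5 (by positivity))
  have h7 : M * 2 / √n * (C * (2 ^ n * n * (M * ‖y‖) ^ 2 * (6 * R))) =
      6 * M * C * (M * ‖y‖) ^ 2 * (2 ^ n * √n) * (R - -R) := by
    nth_rewrite 2 [← Real.mul_self_sqrt n.cast_nonneg]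
    field_simp
    ring
  have h8 := le_of_mul_le_mul_right (h6.trans_eq h7) (by linarith)
  linarith

end Pool.Agent.H.MP_040564_an
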