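import Pool.Agent.H.MP_040564_an.B

namespace Pool.Agent.H.MP_040564_an

open Pool.Agent.H.MP_a83649_an Pool.Agent.H.MP_04e97d_an Finset Complex MeasureTheory Filter Real
open scoped ContDiff NNReal FourierTransform

/-- a bump on `(1,2)` -/
noncomputable def bu : ContDiffBump (3 / 2 : ℝ) := ⟨1 / 4, 1 / 2, by norm_num, by norm_num⟩

lemma bu_zero {s : ℝ} (h : s ≤ 1 ∨ 2 ≤ s) : bu s = 0 := bu.zero_of_le_dist (by
  rw [Real.dist_eq, le_abs]
  simp only [bu]
  rcases h with h | h
  · right; linarith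
  · left; linarith)

lemma bu_cs {E : Type} [Zero E] {f : ℝ → E} {c : ℝ} (hc : 0 < c)
    (h : ∀ s, bu (c * s) = 0 → f s = 0) : HasCompactSupport f :=
  HasCompactSupport.intro (isCompact_Icc (a := 0) (b := 2 / c)) fun s hs => h s (bu_zero (by
    by_contra h1
    push Not at h1
    exact hs ⟨by nlinarith [h1.1], by rw [le_div_iff₀' hc]; exact h1.2.le⟩))

lemma four : ∃ G : ℝ → ℂ, Continuous G ∧ Integrable G ∧ Integrable (fun b => |b| * ‖G b‖) ∧
    ∀ s, ∫ b, G b * ex (2 * π * b * s) = (s * bu s : ℝ) := by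
  have h1 : ContDiff ℝ ∞ fun s : ℝ => ((s * bu s : ℝ) : ℂ) :=
    ofRealCLM.contDiff.comp (contDiff_id.mul bu.contDiff)
  have h2 : HasCompactSupport fun s : ℝ => ((s * bu s : ℝ) : ℂ) :=
    bu_cs one_pos fun s hs => by rw [one_mul] at hs; simp [hs]
  let f := 𝓕 (h2.toSchwartzMap h1)
  refine ⟨f, f.continuous, f.integrable, by simpa using f.integrable_pow_mul volume 1, fun s => ?_⟩
  have h3 := congrFun (h1.continuous.fourierInv_fourier_eq
    (h1.continuous.integrable_of_hasCompactSupport h2) f.integrable) s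
  rw [fourierInv_eq'] at h3
  refine (integral_congr_ae (Eventually.of_forall fun b => ?_)).trans h3
  simp only [smul_eq_mul, ex]
  rw [mul_comm, mul_comm I]
  congr 3
  simp
  ring

/-- Laplace transform of the bump -/
noncomputable def ph (r : ℝ) : ℝ := ∫ s, bu s * rexp (-s * r)

lemma ph_int (r : ℝ) : Integrable fun s => bu s * rexp (-s * r) :=
  Continuous.integrable_of_hasCompactSupport (bu.continuous.mul (by fun_prop))
    bu.hasCompactSupport.mul_right

lemma ph_anti {r r' : ℝ} (h : r ≤ r') : ph r' ≤ ph r :=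
  integral_mono (ph_int _) (ph_int _) fun s => by
    rcases le_total s 1 with h1 | h1
    · simp [bu_zero (Or.inl h1)]
    · exact mul_le_mul_of_nonneg_left (Real.exp_le_exp.2 (by nlinarith)) bu.nonneg

lemma bu_one : bu (3 / 2) = 1 :=
  bu.one_of_mem_closedBall (Metric.mem_closedBall_self bu.rIn_pos.le)

lemma ph_pos (r : ℝ) : 0 < ph r :=
  Continuous.integral_pos_of_hasCompactSupport_nonneg_nonzero (x := 3 / 2)
    (bu.continuous.mul (by fun_prop)) bu.hasCompactSupport.mul_right
    (fun s => mul_nonneg bu.nonneg (Real.exp_pos _).le) (by simp [bu_one])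

lemma ph_lt : 0 < ph 1 - ph 2 := by
  rw [ph, ph, ← integral_sub (ph_int _) (ph_int _)]
  simp only [← mul_sub]
  refine Continuous.integral_pos_of_hasCompactSupport_nonneg_nonzero (x := 3 / 2)
    (bu.continuous.mul (by fun_prop)) bu.hasCompactSupport.mul_right (fun s => ?_) ?_
  · rcases le_total s 1 with h1 | h1
    · simp [bu_zero (Or.inl h1)]
    · exact mul_nonneg bu.nonneg (sub_nonneg.2 (Real.exp_le_exp.2 (by linarith)))
  · rw [bu_one, one_mul, sub_ne_zero]
    exact (Real.exp_lt_exp.2 (by norm_num)).ne'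

variable {Y : Type} [NormedAddCommGroup Y] [NormedSpace ℂ Y] [CompleteSpace Y]
  {U : ℝ → Y →L[ℂ] Y}

/-- averages of orbits -/
noncomputable def av (U : ℝ → Y →L[ℂ] Y) (c : ℝ) (z : Y) : Y :=
  ∫ t, ((c * bu (c * t) : ℝ) : ℂ) • U t z

omit [CompleteSpace Y] in
lemma av_int (hU : BGroup U) {c : ℝ} (hc : 0 < c) (z : Y) :
    Integrable fun t => ((c * bu (c * t) : ℝ) : ℂ) • U t z := by
  have := bu.continuous
  have := hU.2.2.1 z
  exact Continuous.integrable_of_hasCompactSupport (by fun_prop)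
    (bu_cs hc fun s hs => by simp [hs])

lemma av_fun (hU : BGroup U) {c r : ℝ} (hc : 0 < c) {z : Y} (L : Y →L[ℂ] ℂ) {w : ℂ}
    (h : ∀ t, 0 ≤ t → L (U t z) = rexp (-t * r) * w) : L (av U c z) = ph (r / c) * w := by
  rw [av, ← L.integral_comp_comm (av_int hU hc z)]
  have h1 := Measure.integral_comp_mul_left (fun s => bu s * rexp (-s * (r / c))) c
  rw [abs_of_pos (inv_pos.2 hc), smul_eq_mul, eq_inv_mul_iff_mul_eq₀ hc.ne',
    ← integral_const_mul] at h1
  rw [ph, ← h1, ← integral_complex_ofReal, ← integral_mul_const]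
  refine integral_congr_ae (Eventually.of_forall fun t => ?_)
  rcases le_total t 0 with h0 | h0
  · simp [bu_zero (s := c * t) (Or.inl (by nlinarith))]
  · simp only [map_smul, h t h0, smul_eq_mul,
      show -(c * t) * (r / c) = -t * r by field_simp]
    simp
    ring

lemma av_comm (hU : BGroup U) (t : ℝ) (z : Y) : U t (av U 1 z) = av U 1 (U t z) := by
  rw [av, av, ← (U t).integral_comp_comm (av_int hU one_pos z)]
  simp only [map_smul, ← hU.2.1, add_comm t]

lemma av_smooth (hU : BGroup U) (z : Y) : ContDiff ℝ ∞ fun x => U (-x) (av U 1 z) := by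
  have h1 : Continuous fun r => U (-r) z := (hU.2.2.1 z).comp continuous_neg
  convert (bu_cs (f := fun s => ((1 * bu (1 * s) : ℝ) : ℂ)) one_pos fun s hs => by
    simp only [hs]; simp).contDiff_convolution_left (ContinuousLinearMap.lsmul ℝ ℂ)
      (μ := volume) (n := ⊤) (ofRealCLM.contDiff.comp
        (contDiff_const.mul (bu.contDiff.comp (contDiff_const.mul contDiff_id))))
      h1.locallyIntegrable using 2 with x
  rw [av_comm hU, av, convolution_def]
  simp only [← hU.2.1, ContinuousLinearMap.lsmul_apply, neg_sub, sub_eq_add_neg, neg_add_rev,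
    neg_neg]

lemma av_eq {G : ℝ → ℂ} (hG : Continuous G) (h1 : Integrable G)
    (h2 : Integrable fun b => |b| * ‖G b‖)
    (h3 : ∀ s, ∫ b, G b * ex (2 * π * b * s) = (s * bu s : ℝ)) (hU : BGroup U) {y : Y}
    (ho : ContDiff ℝ ∞ fun x => U (-x) y) {c R : ℝ} (hc : 0 < c) (hR : 2 ≤ c * R) :
    Integrable (fun b => G b • ∫ t in Set.Ioc 0 R, mk (fun x => U (-x) y) (2 * π * b * c) t) ∧
    ∫ b, G b • ∫ t in Set.Ioc 0 R, mk (fun x => U (-x) y) (2 * π * b * c) t = av U c y := by
  obtain ⟨M, hM⟩ := hU.2.2.2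
  obtain ⟨L, hL⟩ := mk_le ho (fun x => (U (-x)).le_of_opNorm_le (hM _) y) R
  have h4 : Integrable (Function.uncurry fun b t =>
      G b • mk (fun x => U (-x) y) (2 * π * b * c) t)
      (volume.prod (volume.restrict (Set.Ioc 0 R))) := by
    refine (((h2.const_mul (2 * (M * ‖y‖) * (2 * π * c))).add (h1.norm.mul_const L)).mul_prod
      (integrable_const (1 : ℝ))).mono' ((hG.comp continuous_fst).stronglyMeasurable.smul
      ((mk_meas ho.continuous).comp_measurable (g := fun p : ℝ × ℝ => (2 * π * p.1 * c, p.2))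
        (by fun_prop))).aestronglyMeasurable ?_
    rw [← Measure.restrict_univ (μ := volume), Measure.prod_restrict]
    refine ae_restrict_of_forall_mem (MeasurableSet.univ.prod measurableSet_Ioc) fun p hp => ?_
    refine (norm_smul _ _).trans_le ((mul_le_mul_of_nonneg_left (hL _ _ hp.2)
      (norm_nonneg _)).trans_eq ?_)
    rw [abs_mul, abs_mul, abs_of_pos hc, abs_of_pos two_pi_pos, Pi.add_apply]
    ring
  simp only [← integral_smul]
  refine ⟨h4.integral_prod_left, ?_⟩
  rw [integral_integral_swap h4, av, ← setIntegral_eq_integral_of_forall_compl_eq_zero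
    (f := fun t => ((c * bu (c * t) : ℝ) : ℂ) • U t y) (s := Set.Ioc 0 R) fun t ht => by
      rw [bu_zero, mul_zero, ofReal_zero, zero_smul]
      rw [Set.mem_Ioc, not_and_or, not_lt, not_le] at ht
      exact ht.imp (fun h => by nlinarith) fun h => by nlinarith]
  refine setIntegral_congr_fun measurableSet_Ioc fun t ht => ?_
  have h5 : ∀ s (v : Y), Integrable fun b => (G b * ex (2 * π * b * s)) • v := fun s v =>
    (h1.mul_bdd (c := 1) (ex_smooth.continuous.comp (by fun_prop)).aestronglyMeasurable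
      (Eventually.of_forall fun b => (ex_norm _).le)).smul_const v
  have h6 : ∀ b, G b • mk (fun x => U (-x) y) (2 * π * b * c) t = (t : ℂ)⁻¹ •
      ((G b * ex (2 * π * b * (c * t))) • U t y -
        (G b * ex (2 * π * b * (-(c * t)))) • U (-t) y) := fun b => by
    rw [mk, neg_neg, mul_assoc _ c t, mul_neg]
    module
  have h7 : (t : ℂ) ≠ 0 := ofReal_ne_zero.2 ht.1.ne'
  simp only [h6]
  rw [integral_smul, integral_sub (h5 _ _) (h5 _ _), integral_smul_const, integral_smul_const,
    h3, h3, bu_zero (s := -(c * t)) (Or.inl (by nlinarith [ht.1])), mul_zero, ofReal_zero,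
    zero_smul, sub_zero, smul_smul]
  congr 1
  push_cast
  field_simp

lemma av_r1 (hY : UMD Y) (hU : BGroup U) {y : Y} (ho : ContDiff ℝ ∞ fun x => U (-x) y) :
    ∃ C, ∀ n : ℕ, 0 < n → r1 (fun j : Fin n => av U (lam (j + 1)) y) ≤ C * (2 ^ n * √n) := by
  obtain ⟨G, hG, h1, h2, h3⟩ := four
  obtain ⟨C, hC⟩ := transf hY hU ho
  refine ⟨(∫ b, ‖G b‖) * C, fun n hn => ?_⟩
  have h4 := fun j : Fin n => av_eq hG h1 h2 h3 hU ho (lam_pos (j + 1)) (R := 2 / lam n) (by
    rw [mul_div_assoc', le_div_iff₀ (lam_pos n), mul_comm]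
    exact mul_le_mul_of_nonneg_right (lam_anti j.2) zero_le_two)
  have h5 := fun ε => ss_int ε fun j => (h4 j).1
  simp only [← fun j => (h4 j).2, r1, ← fun ε => (h5 ε).2]
  refine (sum_le_sum fun ε _ => norm_integral_le_integral_norm _).trans ?_
  rw [← integral_finset_sum _ fun ε _ => (h5 ε).1.norm, mul_assoc, ← integral_mul_const]
  refine integral_mono (integrable_finset_sum _ fun ε _ => (h5 ε).1.norm) (h1.norm.mul_const _)
    fun b => (r1_map (G b • 1) ((norm_smul_le _ _).trans (mul_le_of_le_one_right (norm_nonneg _)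
      ContinuousLinearMap.norm_id_le)) _).trans (mul_le_mul_of_nonneg_left
        (hC n hn _ (div_pos two_pos (lam_pos n)) _) (norm_nonneg _))

theorem no_dil (hY : UMD Y) (hU : BGroup U) (Q : Y →L[ℂ] LP) (y : Y)
    (h : ∀ t, 0 ≤ t → sg Aop t (e 0) = Q (U t y)) : False := by
  obtain ⟨C, hC⟩ := av_r1 hY hU (av_smooth hU y)
  have h1 : ∀ j k, fs k (Q (av U (lam (j + 1)) (av U 1 y))) =
      (ph (lam k / lam (j + 1)) * ph (lam k) : ℝ) * d k := fun j k => by
    rw [ofReal_mul, mul_assoc]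
    refine av_fun hU (lam_pos _) ((fs k).comp Q) fun t ht => ?_
    rw [av_comm hU, mul_left_comm, ← div_one (lam k)]
    refine av_fun hU one_pos _ fun s hs => ?_
    rw [← hU.2.1, ContinuousLinearMap.comp_apply, ← h _ (add_nonneg hs ht), sg_mult, fs_e,
      ← mul_assoc, ← ofReal_mul (rexp _) (rexp _), ← Real.exp_add, div_one]
    beta_reduce
    congr 3
    ring
  have h2 : ∀ j, K 1 0 * ((ph 1 - ph 2) * ph 1) * d j ≤
      ‖Q (av U (lam (j + 1)) (av U 1 y)) (j + 1)‖ := fun j => by
    have h3 := co_ge (fun k => (ph (lam k / lam (j + 1)) * ph (lam k) : ℝ)) j norm_one.le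
      fun i hi => by
        have h4 := lam_anti (hi.trans j.le_succ)
        rw [one_mul, ← ofReal_sub, ofReal_re, sub_nonneg]
        exact mul_le_mul (ph_anti (div_le_div_of_nonneg_right h4 (lam_pos _).le)) (ph_anti h4)
          (ph_pos _).le (ph_pos _).le
    have h7 := D_inv (⇑(Q (av U (lam (j + 1)) (av U 1 y)))) j
    simp only [← fs_apply, h1] at h7
    rw [h7]
    refine le_trans (mul_le_mul_of_nonneg_right (mul_le_mul_of_nonneg_left ?_ K_pos.le)
      (d_pos j).le) h3
    have h4 := (lam_pos j).ne'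
    rw [one_mul, ← ofReal_sub, ofReal_re, div_self (lam_pos _).ne',
      show lam j / lam (j + 1) = 2 by rw [lam_succ]; field_simp]
    have h5 := ph_anti (lam_anti j.le_succ)
    have h6 := ph_anti (lam_anti j.zero_le)
    rw [show lam 0 = 1 by simp [lam]] at h6
    nlinarith [mul_le_mul_of_nonneg_left h5 (ph_pos 1).le, mul_le_mul_of_nonneg_left h6 ph_lt.le]
  have hκ := mul_pos K_pos (mul_pos ph_lt (ph_pos 1))
  obtain ⟨n, hn, h3⟩ := grow hκ ((‖Q‖ * |C|) ^ (5 / 4 : ℝ))
  set v := fun j : Fin n => Q (av U (lam (j + 1)) (av U 1 y)) with hv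
  have h4 : ‖∑ ε, md (ss ε v)‖ ≤ 2 ^ n * (‖Q‖ * |C| * √n) := by
    refine (norm_sum_le _ _).trans ((sum_le_sum fun ε _ => ?_).trans
      (((mul_sum ..).symm.trans_le (mul_le_mul_of_nonneg_left ((hC n hn).trans
        (mul_le_mul_of_nonneg_right (le_abs_self C) (by positivity))) (norm_nonneg Q))).trans_eq
        (by ring)))
    rw [md_norm, hv, ss_map]
    exact Q.le_opNorm _
  have h5 := (sum_le_norm _ n).trans (rpow_le_rpow (norm_nonneg _) h4 (by norm_num))
  rw [mul_rpow (by positivity) (by positivity), mul_rpow (by positivity) (by positivity),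
    sqrt_eq_rpow, ← rpow_mul n.cast_nonneg, show (1 / 2 * (5 / 4) : ℝ) = 5 / 8 by norm_num] at h5
  refine (h5.trans_lt (mul_lt_mul_of_pos_left h3 (by positivity))).not_ge ?_
  rw [mul_sum, sum_range, sum_range]
  refine sum_le_sum fun m _ => ?_
  rw [← mul_rpow (by positivity) (mul_pos hκ (d_pos _)).le]
  refine rpow_le_rpow (mul_pos (by positivity) (mul_pos hκ (d_pos _))).le
    ((mul_le_mul_of_nonneg_left (h2 m) (by positivity)).trans
      ((low (fun j => v j (m + 1)) m).trans_eq ?_)) (by norm_num)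
  simp only [lp.coeFn_sum, Finset.sum_apply, md_apply]
  rw [← ofReal_sum, norm_real, Real.norm_of_nonneg (by positivity), r1]
  exact sum_congr rfl fun ε _ =>
    congrArg _ (ss_map (lp.evalCLM ℂ (fun _ : ℕ => ℂ) P (m + 1)) ε v)

theorem gen3 {X : Type} [NormedAddCommGroup X] [NormedSpace ℂ X] (e : X ≃L[ℂ] LP)
    (he : ∀ x, ‖x‖ = NN (e x)) :
    Lat (fun x i => e x i) ∧ ∃ A : X →L[ℂ] X, Bad3 (fun x i => e x i) A := by
  have h1 : ∀ T x, e (e.symm.conjContinuousAlgEquiv T x) = T (e x) := fun T x => by simp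
  refine ⟨(gen e he).1, e.symm.conjContinuousAlgEquiv Aop, fun t ht => ?_, ?_⟩
  · rw [sg_map]
    refine ⟨fun x hx i => ?_, ContinuousLinearMap.opNorm_le_bound _ zero_le_one fun x => ?_⟩
    · beta_reduce
      rw [h1]
      exact sg_pos ht _ hx i
    · rw [he, he, h1, one_mul]
      exact NN_sg ht _
  · rintro ⟨Y, _, _, _, hY, J, Q, U, hU, h⟩
    refine no_dil hY hU ((e : X →L[ℂ] LP).comp Q) (J (e.symm (MP_a83649_an.e 0))) fun t ht => ?_
    rw [ContinuousLinearMap.comp_apply, ← h t ht, sg_map, ContinuousLinearEquiv.coe_coe, h1,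
      e.apply_symm_apply]

end Pool.Agent.H.MP_040564_an
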