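import Pool.Agent.H.MP_04e97d_an.Defs

namespace Pool.Agent.H.MP_040564_an

open Pool.Agent.H.MP_a83649_an MeasureTheory
open scoped ContDiff NNReal

variable {X Y : Type} [NormedAddCommGroup X] [NormedSpace ℂ X] [NormedAddCommGroup Y]
  [NormedSpace ℂ Y]

/-- the principal value of `∫ f(x-t)/t dt` -/
noncomputable def hilb (f : ℝ → Y) (x : ℝ) : Y :=
  ∫ t in Set.Ioi (0 : ℝ), (t : ℂ)⁻¹ • (f (x - t) - f (x + t))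

variable (Y) in
/-- the Hilbert transform is bounded in the norm of `L₂(ℝ;Y)` on test functions -/
def UMD : Prop := ∃ C : ℝ≥0, ∀ f : ℝ → Y, ContDiff ℝ ∞ f → HasCompactSupport f →
  ∫⁻ x, ‖hilb f x‖ₑ ^ 2 ≤ C * ∫⁻ x, ‖f x‖ₑ ^ 2

/-- bounded `C₀`-group -/
def BGroup (U : ℝ → Y →L[ℂ] Y) : Prop :=
  (∀ y, U 0 y = y) ∧ (∀ s t y, U (s + t) y = U s (U t y)) ∧ (∀ y, Continuous fun t => U t y) ∧
    ∃ M, ∀ t, ‖U t‖ ≤ M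

/-- `T t = Q U(t) J` for `t ≥ 0` -/
def Dil (T : ℝ → X →L[ℂ] X) (J : X →L[ℂ] Y) (Q : Y →L[ℂ] X) (U : ℝ → Y →L[ℂ] Y) : Prop :=
  ∀ t, 0 ≤ t → ∀ x, T t x = Q (U t (J x))

/-- loose dilation in the class of UMD spaces -/
def LDil (T : ℝ → X →L[ℂ] X) : Prop :=
  ∃ (Y : Type) (_ : NormedAddCommGroup Y) (_ : NormedSpace ℂ Y), CompleteSpace Y ∧ UMD Y ∧
    ∃ (J : X →L[ℂ] Y) (Q : Y →L[ℂ] X) (U : ℝ → Y →L[ℂ] Y), BGroup U ∧ Dil T J Q U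

/-- the counterexample property -/
def Bad3 (ev : X → ℕ → ℂ) (A : X →L[ℂ] X) : Prop :=
  (∀ t, 0 ≤ t → Pos ev (sg A t) ∧ ‖sg A t‖ ≤ 1) ∧ ¬ LDil (sg A)

end Pool.Agent.H.MP_040564_an
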